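import Mathlib

/-!
Every locally surjunctive monoid is surjunctive.

Idea: let `τ` be an injective cellular automaton over `M` with memory set `S`. By compactness there
is a finite set `F` of `M` such that the values of `τ x` on `F` determine `x 1`. Let `N` be the
submonoid generated by `S` and `F`. The cellular automaton `τ'` over `N` with the same local rule is
injective (configurations over `N` extend to configurations over `M`, and the equivariance of `τ'`
gives the other coordinates), hence surjective because `N` is finitely generated. Its inverse is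
equivariant, and this allows one to solve `τ x = z` over `M` on each `N m` separately.
-/

set_option autoImplicit false

namespace Pool.Agent.Results.MP_498e64_an.LocalToGlobal

universe u v

/-- The left action of a monoid on configurations: `(m x)(m') = x (m' m)`. -/
def act {M : Type u} [Monoid M] {A : Type v} (m : M) (x : M → A) : M → A := fun m' => x (m' * m)

/-- Cellular automata over `M` with alphabet `A`: `τ(x)(m) = μ((m x)|_S)` for a finite set `S` of
`M` and a map `μ : A^S → A`. -/
def IsCellularAutomaton {M : Type u} [Monoid M] {A : Type v} (τ : (M → A) → (M → A)) : Prop :=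
  ∃ S : Set M, S.Finite ∧ ∃ μ : (S → A) → A, ∀ (x : M → A) (m : M),
    τ x m = μ (fun s : S => act m x s)

/-- Surjunctive monoids: injective cellular automata with finite alphabet are surjective. -/
def Surjunctive (M : Type u) [Monoid M] : Prop :=
  ∀ (A : Type v) [Finite A] (τ : (M → A) → (M → A)), IsCellularAutomaton τ →
    Function.Injective τ → Function.Surjective τ

/-- Locally surjunctive monoids: all finitely generated submonoids are surjunctive. -/
def LocallySurjunctive (M : Type u) [Monoid M] : Prop :=
  ∀ N : Submonoid M, N.FG → Surjunctive.{u, v} N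

/-- Compactness: for an injective cellular automaton there is a finite set `F` such that the values
of the image on `F` determine the value of the configuration at `1`. -/
theorem exists_finset_determines {M : Type u} [Monoid M] {A : Type v} [Finite A]
    {τ : (M → A) → (M → A)} (hτ : IsCellularAutomaton τ) (hinj : Function.Injective τ) :
    ∃ F : Finset M, ∀ x y : M → A, (∀ f ∈ F, τ x f = τ y f) → x 1 = y 1 := by
  classical
  obtain ⟨S, hS, μ, hμ⟩ := hτ
  have hSf : Finite S := hS
  by_contra hcon
  push Not at hcon
  let _ : TopologicalSpace A := ⊥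
  have _ : DiscreteTopology A := ⟨rfl⟩
  let K : Finset M → Set ((M → A) × (M → A)) := fun F =>
    {p | (∀ f ∈ F, τ p.1 f = τ p.2 f) ∧ p.1 1 ≠ p.2 1}
  have hcont1 : ∀ f : M, Continuous (fun x : M → A => τ x f) := by
    intro f
    have h0 : (fun x : M → A => τ x f) = fun x : M → A => μ (fun s : S => x (s.1 * f)) := by
      funext x
      exact hμ x f
    rw [h0]
    have h1 : Continuous μ := continuous_of_discreteTopology
    exact h1.comp (continuous_pi fun s => continuous_apply _)
  have hclosed : ∀ F, IsClosed (K F) := by
    intro F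
    have h2 : K F = (⋂ f ∈ F, {p : (M → A) × (M → A) | τ p.1 f = τ p.2 f}) ∩
        {p : (M → A) × (M → A) | p.1 1 ≠ p.2 1} := by
      ext p
      simp [K]
    rw [h2]
    apply IsClosed.inter
    · apply isClosed_biInter
      intro f _
      exact isClosed_eq ((hcont1 f).comp continuous_fst) ((hcont1 f).comp continuous_snd)
    · have h3 : Continuous (fun p : (M → A) × (M → A) => ((p.1 1, p.2 1) : A × A)) :=
        ((continuous_apply 1).comp continuous_fst).prodMk ((continuous_apply 1).comp continuous_snd)
      exact (isClosed_discrete {q : A × A | q.1 ≠ q.2}).preimage h3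
  have hne : ∀ F, (K F).Nonempty := by
    intro F
    obtain ⟨x, y, hxy, h1⟩ := hcon F
    exact ⟨(x, y), hxy, h1⟩
  have hdir : Directed (· ⊇ ·) K := by
    intro F G
    refine ⟨F ∪ G, ?_, ?_⟩
    · intro p hp
      exact ⟨fun f hf => hp.1 f (Finset.mem_union_left _ hf), hp.2⟩
    · intro p hp
      exact ⟨fun f hf => hp.1 f (Finset.mem_union_right _ hf), hp.2⟩
  obtain ⟨p, hp⟩ := IsCompact.nonempty_iInter_of_directed_nonempty_isCompact_isClosed K hdir hne
    (fun F => (hclosed F).isCompact) hclosed
  rw [Set.mem_iInter] at hp
  have h4 : p.1 = p.2 := by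
    apply hinj
    funext m
    exact (hp {m}).1 m (Finset.mem_singleton_self m)
  exact (hp ∅).2 (by rw [h4])

/-- **Theorem.** Every locally surjunctive monoid is surjunctive. -/
theorem result (M : Type u) [Monoid M] (hM : LocallySurjunctive.{u, v} M) :
    Surjunctive.{u, v} M := by
  intro A _ τ hτ hinj z0
  classical
  obtain ⟨F, hF⟩ := exists_finset_determines hτ hinj
  obtain ⟨S, hS, μ, hμ⟩ := hτ
  -- the finitely generated submonoid
  let N : Submonoid M := Submonoid.closure ((hS.toFinset ∪ F : Finset M) : Set M)
  have hNfg : N.FG := ⟨hS.toFinset ∪ F, rfl⟩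
  have hSN : ∀ s ∈ S, s ∈ N := fun s hs =>
    Submonoid.subset_closure (by simp [hs])
  have hFN : ∀ f ∈ F, f ∈ N := fun f hf =>
    Submonoid.subset_closure (by simp [hf])
  -- the memory set inside `N`
  have hSf : Finite S := hS
  let ι : S → N := fun s => ⟨s.1, hSN s.1 s.2⟩
  let S' : Set N := Set.range ι
  let μ' : (S' → A) → A := fun g => μ (fun s => g ⟨ι s, Set.mem_range_self s⟩)
  let τ' : (N → A) → (N → A) := fun x m => μ' (fun s => act m x s)
  have hτ' : ∀ (x : N → A) (m : N), τ' x m = μ (fun s => x (ι s * m)) := fun x m => rfl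
  have hCA : IsCellularAutomaton τ' := ⟨S', Set.finite_range ι, μ', fun x m => rfl⟩
  have hτS : ∀ (x : M → A) (m : M), τ x m = μ (fun s : S => x (s.1 * m)) := hμ
  -- translation equivariance
  have hequiv : ∀ (x : N → A) (n m : N), τ' (fun k => x (k * n)) m = τ' x (m * n) := by
    intro x n m
    show μ (fun s => x (ι s * m * n)) = μ (fun s => x (ι s * (m * n)))
    simp only [mul_assoc]
  -- the value at 1 is determined
  have hone : ∀ x y : N → A, τ' x = τ' y → x 1 = y 1 := by
    intro x y hxy
    let ext : (N → A) → (M → A) := fun u m => if h : m ∈ N then u ⟨m, h⟩ else u 1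
    have hext : ∀ (u : N → A) (m : M) (h : m ∈ N), ext u m = u ⟨m, h⟩ := by
      intro u m h
      simp [ext, h]
    have h1 : ∀ f ∈ F, τ (ext x) f = τ (ext y) f := by
      intro f hf
      have h2 : ∀ u : N → A, τ (ext u) f = τ' u ⟨f, hFN f hf⟩ := by
        intro u
        rw [hτ', hτS]
        congr 1
        funext s
        exact hext u _ (N.mul_mem (hSN s.1 s.2) (hFN f hf))
      rw [h2, h2, hxy]
    have h3 := hF (ext x) (ext y) h1
    rw [hext x 1 N.one_mem, hext y 1 N.one_mem] at h3
    exact h3
  have hinj' : Function.Injective τ' := by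
    intro x y hxy
    funext n
    have h1 : τ' (fun k => x (k * n)) = τ' (fun k => y (k * n)) := by
      funext m
      rw [hequiv, hequiv, hxy]
    have h2 := hone (fun k => x (k * n)) (fun k => y (k * n)) h1
    simpa using h2
  have hsurj' : Function.Surjective τ' := hM N hNfg A τ' hCA hinj'
  -- solve on each orbit
  let σ : (N → A) → (N → A) := Function.surjInv hsurj'
  have hσ : ∀ z, τ' (σ z) = z := Function.surjInv_eq hsurj'
  let orb : M → (N → A) := fun m n => z0 (n.1 * m)
  have hshift : ∀ (n : N) (m : M), σ (orb (n.1 * m)) = fun k => σ (orb m) (k * n) := by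
    intro n m
    apply hinj'
    rw [hσ]
    funext k
    rw [hequiv, hσ]
    simp [orb, mul_assoc]
  refine ⟨fun m => σ (orb m) 1, ?_⟩
  funext m
  have h1 : ∀ s : S, σ (orb (s.1 * m)) 1 = σ (orb m) (ι s * 1) := by
    intro s
    have := congrFun (hshift (ι s) m) 1
    simpa [ι] using this
  rw [hτS]
  have h2 : μ (fun s : S => σ (orb (s.1 * m)) 1) = τ' (σ (orb m)) 1 := by
    rw [hτ']
    congr 1
    funext s
    exact h1 s
  rw [h2, hσ]
  simp [orb]

end Pool.Agent.Results.MP_498e64_an.LocalToGlobal
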